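import Pool.Agent.H90.SPW.Targets

/-!
# Row ML: marginals of skeletons
-/

set_option autoImplicit false
set_option linter.unusedSectionVars false

open Finset
open scoped BigOperators Classical

namespace Pool.Agent.H10.SPW
open Pool.Agent.H90.SPW

section
variable {X : Type} [Fintype X]

/-- The product of the first matrices of a sequence. -/
noncomputable def mlP (N : ℕ → Matrix X X ℝ) : ℕ → Matrix X X ℝ
  | 0 => 1
  | k + 1 => mlP N k * N k

lemma mlP_add (N : ℕ → Matrix X X ℝ) (a b : ℕ) :
    mlP N (a + b) = mlP N a * mlP (fun n => N (a + n)) b := by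
  induction b with
  | zero => simp [mlP]
  | succ b ih =>
    rw [← add_assoc]
    simp only [mlP]
    rw [ih, Matrix.mul_assoc]

lemma mlP_const (N : ℕ → Matrix X X ℝ) (M : Matrix X X ℝ) (b : ℕ) (h : ∀ n < b, N n = M) :
    mlP N b = M ^ b := by
  induction b with
  | zero => simp [mlP]
  | succ b ih =>
    simp only [mlP]
    rw [ih fun n hn => h n (by omega), h b (by omega), pow_succ]

lemma mlP_one (N : ℕ → Matrix X X ℝ) : mlP N 1 = N 0 := by
  simp [mlP]

lemma ml_sum (N : ℕ → Matrix X X ℝ) (k : ℕ) (x x' : X) :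
    ∑ s : Fin (k + 1) → X, (if s 0 = x ∧ s (Fin.last k) = x' then
      ∏ i : Fin k, N i (s i.castSucc) (s i.succ) else 0) = mlP N k x x' := by
  induction k generalizing x' with
  | zero =>
    simp only [mlP, Matrix.one_apply, univ_eq_empty, prod_empty]
    have e : ∀ s : Fin (0 + 1) → X, (if s 0 = x ∧ s (Fin.last 0) = x' then (1 : ℝ) else 0) =
        if s = (fun _ => x) then (if x = x' then 1 else 0) else 0 := by
      intro s
      by_cases h : s = fun _ => x
      · subst h
        simp
      · rw [if_neg h, if_neg]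
        rintro ⟨h1, h2⟩
        apply h
        funext i
        have : i = 0 := Fin.ext (show (i : ℕ) = 0 by have := i.2; omega)
        rw [this, h1]
    simp only [e, sum_ite_eq', mem_univ, if_true]
  | succ k ih =>
    rw [← (Fin.snocEquiv (fun _ : Fin (k + 2) => X)).sum_comp, Fintype.sum_prod_type]
    simp only [mlP, Matrix.mul_apply]
    have e1 : ∀ (z : X) (s : Fin (k + 1) → X),
        (if (Fin.snocEquiv (fun _ : Fin (k + 2) => X)) (z, s) 0 = x ∧
            (Fin.snocEquiv (fun _ : Fin (k + 2) => X)) (z, s) (Fin.last (k + 1)) = x' then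
          ∏ i : Fin (k + 1), N i ((Fin.snocEquiv (fun _ : Fin (k + 2) => X)) (z, s) i.castSucc)
            ((Fin.snocEquiv (fun _ : Fin (k + 2) => X)) (z, s) i.succ) else 0) =
        if z = x' then (if s 0 = x then (∏ i : Fin k, N i (s i.castSucc) (s i.succ)) *
          N k (s (Fin.last k)) x' else 0) else 0 := by
      intro z s
      have h0 : (Fin.snocEquiv (fun _ : Fin (k + 2) => X)) (z, s) 0 = s 0 := by
        change (Fin.snoc s z : Fin (k + 2) → X) (Fin.castSucc 0) = s 0
        rw [Fin.snoc_castSucc]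
      have h1 : (Fin.snocEquiv (fun _ : Fin (k + 2) => X)) (z, s) (Fin.last (k + 1)) = z := by
        change (Fin.snoc s z : Fin (k + 2) → X) (Fin.last (k + 1)) = z
        rw [Fin.snoc_last]
      have h2 : ∀ i : Fin (k + 1),
          (Fin.snocEquiv (fun _ : Fin (k + 2) => X)) (z, s) i.castSucc = s i := by
        intro i
        change (Fin.snoc s z : Fin (k + 2) → X) i.castSucc = s i
        rw [Fin.snoc_castSucc]
      rw [h0, h1, Fin.prod_univ_castSucc]
      simp only [h2, Fin.succ_castSucc, Fin.succ_last, h1, Fin.val_castSucc, Fin.val_last]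
      by_cases hz : z = x'
      · subst hz
        by_cases hs : s 0 = x
        · simp [hs]
        · simp [hs]
      · simp [hz]
    simp only [e1]
    rw [sum_comm]
    simp only [sum_ite_eq', mem_univ, if_true]
    have e2 : ∀ s : Fin (k + 1) → X, (if s 0 = x then
        (∏ i : Fin k, N i (s i.castSucc) (s i.succ)) * N k (s (Fin.last k)) x' else 0) =
        ∑ y : X, (if s 0 = x ∧ s (Fin.last k) = y then
          ∏ i : Fin k, N i (s i.castSucc) (s i.succ) else 0) * N k y x' := by
      intro s
      rw [sum_eq_single (s (Fin.last k))]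
      · by_cases hs : s 0 = x
        · simp [hs]
        · simp [hs]
      · intro y _ hy
        rw [if_neg, zero_mul]
        exact fun h => hy h.2.symm
      · intro h
        exact absurd (mem_univ _) h
    simp only [e2]
    rw [sum_comm]
    refine sum_congr rfl fun y _ => ?_
    rw [← sum_mul, ih]

/-- The matrices with one changed factor. -/
noncomputable def mlF (M : Matrix X X ℝ) (i : ℕ) (F : X → X → ℝ) (n : ℕ) : Matrix X X ℝ :=
  Matrix.of fun a b => M a b * (if n = i then F a b else 1)

lemma mlF_ne (M : Matrix X X ℝ) (i : ℕ) (F : X → X → ℝ) (n : ℕ) (h : n ≠ i) :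
    mlF M i F n = M := by
  ext a b
  simp [mlF, h]

lemma mlF_eq (M : Matrix X X ℝ) (i : ℕ) (F : X → X → ℝ) (a b : X) :
    mlF M i F i a b = M a b * F a b := by
  simp [mlF]

/-- The matrices with two changed factors. -/
noncomputable def mlG (M : Matrix X X ℝ) (i j : ℕ) (F G : X → X → ℝ) (n : ℕ) : Matrix X X ℝ :=
  Matrix.of fun a b => M a b * ((if n = i then F a b else 1) * (if n = j then G a b else 1))

lemma mlG_ne (M : Matrix X X ℝ) (i j : ℕ) (F G : X → X → ℝ) (n : ℕ) (h : n ≠ i) (h' : n ≠ j) :
    mlG M i j F G n = M := by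
  ext a b
  simp [mlG, h, h']

lemma mlG_i (M : Matrix X X ℝ) (i j : ℕ) (F G : X → X → ℝ) (hij : i ≠ j) (a b : X) :
    mlG M i j F G i a b = M a b * F a b := by
  simp [mlG, hij]

lemma mlG_j (M : Matrix X X ℝ) (i j : ℕ) (F G : X → X → ℝ) (hij : i ≠ j) (a b : X) :
    mlG M i j F G j a b = M a b * G a b := by
  simp [mlG, hij.symm]

lemma mlF_prod (M : Matrix X X ℝ) (i : ℕ) (F : X → X → ℝ) (d : ℕ) :
    mlP (mlF M i F) (i + (1 + d)) = M ^ i * (mlF M i F i * M ^ d) := by
  rw [mlP_add, mlP_add, mlP_one,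
    mlP_const _ M i fun n hn => mlF_ne M i F n (by omega),
    mlP_const _ M d fun n _ => mlF_ne M i F _ (by omega)]
  rfl

lemma mlG_prod (M : Matrix X X ℝ) (i j : ℕ) (F G : X → X → ℝ) (e d : ℕ)
    (hj : i + (1 + e) = j) :
    mlP (mlG M i j F G) (i + (1 + (e + (1 + d)))) = M ^ i * (mlG M i j F G i *
      (M ^ e * (mlG M i j F G j * M ^ d))) := by
  rw [mlP_add, mlP_add, mlP_add, mlP_add, mlP_one, mlP_one,
    mlP_const _ M i fun n hn => mlG_ne M i j F G n (by omega) (by omega),
    mlP_const _ M e fun n hn => mlG_ne M i j F G _ (by omega) (by omega),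
    mlP_const _ M d fun n _ => mlG_ne M i j F G _ (by omega) (by omega)]
  have ej : i + (1 + (e + 0)) = j := by omega
  simp only [ej]
  rfl

lemma ml_prod (k : ℕ) (s : Fin (k + 1) → X) (i : Fin k) (F : X → X → ℝ) :
    ∏ n : Fin k, (if (n : ℕ) = (i : ℕ) then F (s n.castSucc) (s n.succ) else 1) =
      F (s i.castSucc) (s i.succ) := by
  rw [prod_eq_single i]
  · simp
  · intro n _ hn
    rw [if_neg]
    exact fun h => hn (Fin.ext h)
  · intro h
    exact absurd (mem_univ _) h

lemma ml_three (A B C : Matrix X X ℝ) (x x' : X) :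
    (A * (B * C)) x x' = ∑ a, ∑ b, A x a * B a b * C b x' := by
  simp only [Matrix.mul_apply, mul_sum]
  refine sum_congr rfl fun a _ => sum_congr rfl fun b _ => ?_
  ring

end

/-- ML: marginals of skeletons. -/
theorem pf_ML : T_ML := by
  intro X _ M k x x'
  refine ⟨?_, ?_, ?_⟩
  · have h := ml_sum (fun _ => M) k x x'
    rw [mlP_const (fun _ => M) M k fun _ _ => rfl] at h
    exact h
  · intro i F
    have h := ml_sum (mlF M i F) k x x'
    have hk : k = (i : ℕ) + (1 + (k - 1 - (i : ℕ))) := by
      have := i.2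
      omega
    have e : mlP (mlF M i F) k = M ^ (i : ℕ) * (mlF M i F i * M ^ (k - 1 - (i : ℕ))) :=
      (congrArg (mlP (mlF M i F)) hk).trans (mlF_prod M i F _)
    rw [e, ml_three] at h
    simp only [mlF_eq] at h
    rw [← h]
    refine sum_congr rfl fun s _ => ?_
    congr 1
    simp only [mlF, Matrix.of_apply]
    rw [prod_mul_distrib, ml_prod]
    rfl
  · intro i j hij F G
    have hij' : (i : ℕ) < j := hij
    have h := ml_sum (mlG M i j F G) k x x'
    have hk : k = (i : ℕ) + (1 + (((j : ℕ) - i - 1) + (1 + (k - 1 - (j : ℕ))))) := by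
      have := j.2
      omega
    have e : mlP (mlG M i j F G) k = M ^ (i : ℕ) * (mlG M i j F G i *
        (M ^ ((j : ℕ) - i - 1) * (mlG M i j F G j * M ^ (k - 1 - (j : ℕ))))) :=
      (congrArg (mlP (mlG M i j F G)) hk).trans (mlG_prod M i j F G _ _ (by omega))
    rw [e, ml_three] at h
    have e2 : ∀ a b : X, (M ^ (i : ℕ)) x a * mlG M i j F G i a b *
        (M ^ ((j : ℕ) - i - 1) * (mlG M i j F G j * M ^ (k - 1 - (j : ℕ)))) b x' =
        ∑ u, ∑ v, (M ^ (i : ℕ)) x a * (M a b * F a b) * (M ^ ((j : ℕ) - i - 1)) b u *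
          (M u v * G u v) * (M ^ (k - 1 - (j : ℕ))) v x' := by
      intro a b
      rw [ml_three, mlG_i M i j F G hij'.ne, mul_sum]
      refine sum_congr rfl fun u _ => ?_
      rw [mul_sum]
      refine sum_congr rfl fun v _ => ?_
      rw [mlG_j M i j F G hij'.ne]
      ring
    simp only [e2] at h
    rw [← h]
    refine sum_congr rfl fun s _ => ?_
    congr 1
    simp only [mlG, Matrix.of_apply]
    rw [prod_mul_distrib, prod_mul_distrib, ml_prod, ml_prod]
    rfl

end Pool.Agent.H10.SPW
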